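import Pool.Agent.Q230.SU.Hard

/-!
# Surjectivity of integer polynomial maps between full spaces is `∀∃ℝ`-complete

Sketch of the proof.  A sentence `∀ x ∃ y` about a quantifier-free formula is turned into
`∀ x ∃ y, P(x, y) = 0` for a polynomial `P ≥ 0`.  The polynomial map
`H(u, v) = (u v - 1, u³ v - u² - v)` has the image `ℝ² ∖ {0}`.  So the map
`(x, y, w, u, v) ↦ (x, (P(x, y) + w²) H(u, v))` is surjective onto `ℝ^k × ℝ²` if and only if for
every `x` there is a `y` with `P(x, y) = 0`.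
-/

namespace Pool.Agent.Results.MP_e38cae_lc.FullSpaceSurjectivity

open Pool.Agent.NPC Pool.Agent.Q230.SU

/-- Surjectivity of integer polynomial maps `ℝ^n → ℝ^m` is `∀∃ℝ`-complete, also for maps of degree
at most `d`, for every `d ≥ 8`. -/
theorem result : AERComplete (lang Surj) ∧ ∀ d, 8 ≤ d → AERComplete (lang (SurjDeg d)) :=
  ⟨⟨Q230SU.surj_mem, Q230SU.surj_hard⟩, fun d hd => ⟨Q230SU.surjDeg_mem d, Q230SU.surjDeg_hard hd⟩⟩

end Pool.Agent.Results.MP_e38cae_lc.FullSpaceSurjectivity
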